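import Pool.Agent.Lib.MP_af711c_co.Spikes

/-!
# Counting isomorphism classes
-/

namespace Pool.Agent.Lib.MP_af711c_co

open Set

/-- Parameters attached to a function `a : Fin m → Fin M`. -/
def mkParams (m M T : ℕ) (hm : 1 ≤ m) (hM : 1 ≤ M) (hT : 4 * m + 2 * M ≤ T)
    (a : Fin m → Fin M) : Params where
  m := m
  T := T
  a s := if h : s < m then (a ⟨s, h⟩ : ℕ) else 0
  hm := hm
  hT := by omega
  ha s hs := by
    rw [dif_pos hs]
    have := (a ⟨s, hs⟩).2
    omega

/-- The colouring of the vertices. -/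
noncomputable def col (m T : ℕ) (i : Fin (T + (3 * m + 1))) : Fin 4 :=
  open Classical in
  if (i : ℕ) % 2 = 0 ∧ 0 < (i : ℕ) ∧ (i : ℕ) ≤ 2 * m then 1
  else if (i : ℕ) % 2 = 0 ∧ 4 * m + 2 ≤ (i : ℕ) ∧ (i : ℕ) < T then 2
  else if ∃ s < m, (i : ℕ) = T + (3 * m + 1) - (3 * s + 2) then 3
  else 0

/-- Number of neighbours of a given colour. -/
noncomputable def nb (m T : ℕ) (G : SimpleGraph (Fin (T + (3 * m + 1)))) (c : Fin 4)
    (i : Fin (T + (3 * m + 1))) : ℕ :=
  {j | col m T j = c ∧ G.Adj i j}.ncard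

lemma nb_iso {m T : ℕ} {G H : SimpleGraph (Fin (T + (3 * m + 1)))} (e : G ≃g H)
    (he : ∀ i, col m T (e i) = col m T i) (c : Fin 4) (i : Fin (T + (3 * m + 1))) :
    nb m T G c i = nb m T H c (e i) := by
  unfold nb
  have : {j | col m T j = c ∧ H.Adj (e i) j} = e '' {j | col m T j = c ∧ G.Adj i j} := by
    ext j
    constructor
    · rintro ⟨h1, h2⟩
      refine ⟨e.symm j, ⟨?_, ?_⟩, by simp⟩
      · have := he (e.symm j)
        rw [RelIso.apply_symm_apply] at this
        rw [← this]; exact h1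
      · rw [← e.map_adj_iff]
        simpa using h2
    · rintro ⟨k, ⟨h1, h2⟩, rfl⟩
      exact ⟨by rw [he]; exact h1, e.map_adj_iff.2 h2⟩
  rw [this, ncard_image_of_injective _ e.injective]

/-- The apex of spike `s`. -/
def apex {m T : ℕ} (s : Fin m) : Fin (T + (3 * m + 1)) :=
  ⟨T + (3 * m + 1) - (3 * (s : ℕ) + 2), by omega⟩

section

variable {m M T : ℕ} (hm : 1 ≤ m) (hM : 1 ≤ M) (hT : 4 * m + 2 * M ≤ T)

/-- The visibility graph. -/
noncomputable def gr (a : Fin m → Fin M) : SimpleGraph (Fin (T + (3 * m + 1))) :=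
  (mkParams m M T hm hM hT a).poly.visibilityGraph

include hm hM hT in
lemma col_eq_three (i : Fin (T + (3 * m + 1))) :
    col m T i = 3 ↔ ∃ s : Fin m, i = apex s := by
  classical
  unfold col
  constructor
  · intro h
    split_ifs at h with h1 h2 h3
    · exact absurd h (by decide)
    · exact absurd h (by decide)
    · obtain ⟨s, hs, h4⟩ := h3
      exact ⟨⟨s, hs⟩, Fin.ext h4⟩
    · exact absurd h (by decide)
  · rintro ⟨s, rfl⟩
    have hs := s.2
    have h0 : ((apex s : Fin (T + (3 * m + 1))) : ℕ) = T + (3 * m + 1) - (3 * (s : ℕ) + 2) := rfl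
    rw [if_neg (by omega), if_neg (by omega), if_pos ⟨s, s.2, h0⟩]

lemma nb_left (a : Fin m → Fin M) (s : Fin m) :
    nb m T (gr hm hM hT a) 1 (apex s) = m - s := by
  classical
  unfold nb
  have hs := s.2
  rw [← ncard_image_of_injective _ (Fin.val_injective)]
  have : (Fin.val '' {j | col m T j = 1 ∧ (gr hm hM hT a).Adj (apex s) j}) =
      ↑((Finset.Ioc (s : ℕ) m).image (fun t => 2 * t)) := by
    ext k
    simp only [mem_image, mem_ofPred_eq, Finset.coe_image, Finset.coe_Ioc, mem_Ioc]
    constructor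
    · rintro ⟨j, ⟨h1, h2⟩, rfl⟩
      have h3 : (j : ℕ) % 2 = 0 ∧ 0 < (j : ℕ) ∧ (j : ℕ) ≤ 2 * m := by
        unfold col at h1
        split_ifs at h1 with h3 h4 h5
        · exact h3
        · exact absurd h1 (by decide)
        · exact absurd h1 (by decide)
        · exact absurd h1 (by decide)
      have h4 := ((mkParams m M T hm hM hT a).adj_iff (s := s) (k := j) s.2 h3.2.1
        (by change (j : ℕ) < T; omega) h3.1 (apex s) j rfl rfl).1 h2
      exact ⟨j / 2, by omega, by omega⟩
    · rintro ⟨t, ⟨ht1, ht2⟩, rfl⟩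
      refine ⟨⟨2 * t, by omega⟩, ⟨?_, ?_⟩, rfl⟩
      · unfold col
        rw [if_pos ⟨by simp only; omega, by simp only; omega, by simp only; omega⟩]
      · refine ((mkParams m M T hm hM hT a).adj_iff (s := s) (k := 2 * t) s.2 (by omega)
          (by change 2 * t < T; omega) (by omega) (apex s) ⟨2 * t, ?_⟩ rfl rfl).2 ⟨by omega, ?_⟩
        have hmm : (mkParams m M T hm hM hT a).m = m := rfl
        rw [hmm]
        omega
  rw [this, ncard_coe_finset, Finset.card_image_of_injective _ (fun x y h => by omega), Nat.card_Ioc]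

lemma nb_right (a : Fin m → Fin M) (s : Fin m) :
    nb m T (gr hm hM hT a) 2 (apex s) = a s := by
  classical
  unfold nb
  have hs := s.2
  have has := (a s).2
  have hpa : (mkParams m M T hm hM hT a).a s = a s := by
    change (if h : (s : ℕ) < m then (a ⟨s, h⟩ : ℕ) else 0) = _
    rw [dif_pos s.2]
  rw [← ncard_image_of_injective _ (Fin.val_injective)]
  have : (Fin.val '' {j | col m T j = 2 ∧ (gr hm hM hT a).Adj (apex s) j}) =
      ↑((Finset.Ioc 0 (a s : ℕ)).image (fun t => 4 * m + 2 * t)) := by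
    ext k
    simp only [mem_image, mem_ofPred_eq, Finset.coe_image, Finset.coe_Ioc, mem_Ioc]
    constructor
    · rintro ⟨j, ⟨h1, h2⟩, rfl⟩
      have h3 : (j : ℕ) % 2 = 0 ∧ 4 * m + 2 ≤ (j : ℕ) ∧ (j : ℕ) < T := by
        unfold col at h1
        split_ifs at h1 with h3 h4 h5
        · exact absurd h1 (by decide)
        · exact h4
        · exact absurd h1 (by decide)
        · exact absurd h1 (by decide)
      have h4 := ((mkParams m M T hm hM hT a).adj_iff (s := s) (k := j) s.2 (by omega)
        h3.2.2 h3.1 (apex s) j rfl rfl).1 h2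
      rw [hpa] at h4
      have h5 : (j : ℕ) < 4 * m + 2 * (a s : ℕ) + 1 := h4.2
      exact ⟨(j - 4 * m) / 2, by omega, by omega⟩
    · rintro ⟨t, ⟨ht1, ht2⟩, rfl⟩
      refine ⟨⟨4 * m + 2 * t, by omega⟩, ⟨?_, ?_⟩, rfl⟩
      · unfold col
        rw [if_neg (by simp only; omega),
          if_pos ⟨by simp only; omega, by simp only; omega, by simp only; omega⟩]
      · refine ((mkParams m M T hm hM hT a).adj_iff (s := s) (k := 4 * m + 2 * t) s.2 (by omega)
          (by change 4 * m + 2 * t < T; omega) (by omega) (apex s)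
          ⟨4 * m + 2 * t, ?_⟩ rfl rfl).2 ⟨by omega, ?_⟩
        rw [hpa]
        have hmm : (mkParams m M T hm hM hT a).m = m := rfl
        rw [hmm]
        omega
  rw [this, ncard_coe_finset, Finset.card_image_of_injective _ (fun x y h => by omega), Nat.card_Ioc]
  omega

lemma eq_of_iso (a b : Fin m → Fin M) (e : gr hm hM hT a ≃g gr hm hM hT b)
    (he : ∀ i, col m T (e i) = col m T i) : a = b := by
  funext s
  have h1 : col m T (e (apex s)) = 3 := by
    rw [he, col_eq_three hm hM hT]
    exact ⟨s, rfl⟩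
  rw [col_eq_three hm hM hT] at h1
  obtain ⟨s', hs'⟩ := h1
  have h2 := nb_iso e he 1 (apex s)
  rw [hs', nb_left, nb_left] at h2
  have h3 : s = s' := by
    ext
    have := s.2
    have := s'.2
    omega
  subst h3
  have h4 := nb_iso e he 2 (apex s)
  rw [hs', nb_right, nb_right] at h4
  exact Fin.ext h4

include hm hM hT in
/-- The main counting bound. -/
theorem pow_le : M ^ m ≤ numVisibilityGraphs (T + (3 * m + 1)) * 4 ^ (T + (3 * m + 1)) := by
  classical
  set n := T + (3 * m + 1) with hn
  let S : Set (Quotient (isoSetoid n)) :=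
    Set.range fun P : SimplePolygon n => Quotient.mk (isoSetoid n) P.visibilityGraph
  have hfin : Finite (Quotient (isoSetoid n)) := inferInstance
  -- for every `a`, an isomorphism to the chosen representative
  have hiso : ∀ a : Fin m → Fin M, Nonempty
      (gr hm hM hT a ≃g (Quotient.mk (isoSetoid n) (gr hm hM hT a)).out) := by
    intro a
    have h1 : (isoSetoid n).r (Quotient.mk (isoSetoid n) (gr hm hM hT a)).out
        (gr hm hM hT a) := Quotient.mk_out (s := isoSetoid n) (gr hm hM hT a)
    obtain ⟨e⟩ := h1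
    exact ⟨e.symm⟩
  let φ : ∀ a : Fin m → Fin M,
      gr hm hM hT a ≃g (Quotient.mk (isoSetoid n) (gr hm hM hT a)).out := fun a => (hiso a).some
  let F : (Fin m → Fin M) → S × (Fin n → Fin 4) := fun a =>
    (⟨Quotient.mk (isoSetoid n) (gr hm hM hT a), ⟨_, rfl⟩⟩, fun i => col m T ((φ a).symm i))
  have hF : Function.Injective F := by
    intro a b hab
    have h1 : Quotient.mk (isoSetoid n) (gr hm hM hT a) =
        Quotient.mk (isoSetoid n) (gr hm hM hT b) := by
      have := congrArg (fun x => ((x.1 : S) : Quotient (isoSetoid n))) hab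
      exact this
    have h2 : ∀ i, col m T ((φ a).symm i) = col m T ((φ b).symm i) := by
      intro i
      have := congrArg (fun x => x.2 i) hab
      exact this
    have key : ∀ (q1 q2 : Quotient (isoSetoid n)) (h : q1 = q2)
        (e1 : gr hm hM hT a ≃g q1.out) (e2 : gr hm hM hT b ≃g q2.out),
        (∀ i, col m T (e1.symm i) = col m T (e2.symm i)) → a = b := by
      rintro q1 q2 rfl e1 e2 hcol
      apply eq_of_iso hm hM hT a b (e1.trans e2.symm)
      intro i
      have := hcol (e1 i)
      rw [RelIso.symm_apply_apply] at this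
      exact this.symm
    exact key _ _ h1 (φ a) (φ b) h2
  have hcard := Nat.card_le_card_of_injective F hF
  rw [Nat.card_prod] at hcard
  have h3 : Nat.card (Fin m → Fin M) = M ^ m := by simp
  have h4 : Nat.card (Fin n → Fin 4) = 4 ^ n := by simp
  rw [h3, h4] at hcard
  exact hcard

end

end Pool.Agent.Lib.MP_af711c_co
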