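import Mathlib

/-!
# Simple polygons and their visibility graphs
-/

namespace Pool.Agent.Lib.MP_af711c_co

open Set

/-- The cyclic successor of an index `i` modulo `n`. -/
def next {n : ℕ} (i : Fin n) : Fin n := ⟨((i : ℕ) + 1) % n, Nat.mod_lt _ i.pos⟩

/-- A closed polygonal curve without self-intersections in the plane, with `n ≥ 3` distinct
vertices `v 0, …, v (n-1)` in boundary order: two different edges `[v i, v (i+1)]` and
`[v j, v (j+1)]` (indices modulo `n`) meet only in a common endpoint. -/
structure SimplePolygon (n : ℕ) where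
  /-- the vertices in boundary order -/
  v : Fin n → ℝ × ℝ
  three_le : 3 ≤ n
  injective : Function.Injective v
  simple : ∀ i j : Fin n, i ≠ j →
    segment ℝ (v i) (v (next i)) ∩ segment ℝ (v j) (v (next j)) ⊆
      {v i, v (next i)} ∩ {v j, v (next j)}

/-- The closed polygonal curve: the union of the edges. -/
def SimplePolygon.curve {n : ℕ} (P : SimplePolygon n) : Set (ℝ × ℝ) :=
  ⋃ i : Fin n, segment ℝ (P.v i) (P.v (next i))

/-- The closed region bounded by the curve: the curve together with the bounded connected
components of its complement. -/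
def SimplePolygon.region {n : ℕ} (P : SimplePolygon n) : Set (ℝ × ℝ) :=
  P.curve ∪ {q | q ∈ P.curveᶜ ∧ Bornology.IsBounded (connectedComponentIn P.curveᶜ q)}

/-- The visibility graph of `P`: the vertices `i ≠ j` are adjacent if and only if the closed
segment from `v i` to `v j` is contained in the closed region bounded by the curve. -/
def SimplePolygon.visibilityGraph {n : ℕ} (P : SimplePolygon n) : SimpleGraph (Fin n) where
  Adj i j := i ≠ j ∧ segment ℝ (P.v i) (P.v j) ⊆ P.region
  symm := ⟨fun i j h => ⟨h.1.symm, by rw [segment_symm]; exact h.2⟩⟩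
  loopless := ⟨fun _ h => h.1 rfl⟩

/-- Isomorphism of graphs on `Fin n`, as an equivalence relation. -/
def isoSetoid (n : ℕ) : Setoid (SimpleGraph (Fin n)) where
  r G H := Nonempty (G ≃g H)
  iseqv := ⟨fun _ => ⟨SimpleGraph.Iso.refl⟩, fun ⟨e⟩ => ⟨e.symm⟩, fun ⟨e⟩ ⟨f⟩ => ⟨e.trans f⟩⟩

/-- `N(n)`: the number of isomorphism classes of visibility graphs of simple polygons with `n`
vertices. -/
noncomputable def numVisibilityGraphs (n : ℕ) : ℕ :=
  (Set.range fun P : SimplePolygon n => Quotient.mk (isoSetoid n) P.visibilityGraph).ncard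

end Pool.Agent.Lib.MP_af711c_co
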