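import Mathlib

/-!
# Piecewise linear interpolation
-/

namespace Pool.Agent.Lib.MP_af711c_co

open Set

/-- Membership in a non-vertical segment. -/
lemma mem_segment_graph {x1 x2 y1 y2 : ℝ} (h : x1 < x2) (q : ℝ × ℝ) :
    q ∈ segment ℝ (x1, y1) (x2, y2) ↔
      q.1 ∈ Icc x1 x2 ∧ q.2 = y1 + (y2 - y1) * ((q.1 - x1) / (x2 - x1)) := by
  have hpos : 0 < x2 - x1 := sub_pos.2 h
  constructor
  · rintro ⟨a, b, ha, hb, hab, rfl⟩
    have ha' : a = 1 - b := by linarith
    subst ha'
    simp only [Prod.smul_mk, smul_eq_mul, Prod.mk_add_mk, mem_Icc]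
    refine ⟨⟨by nlinarith, by nlinarith⟩, ?_⟩
    have : (1 - b) * x1 + b * x2 - x1 = b * (x2 - x1) := by ring
    rw [this, mul_div_assoc, div_self hpos.ne']
    ring
  · rintro ⟨⟨h1, h2⟩, h3⟩
    refine ⟨1 - (q.1 - x1) / (x2 - x1), (q.1 - x1) / (x2 - x1), ?_, ?_, by ring, ?_⟩
    · rw [sub_nonneg, div_le_one hpos]; linarith
    · exact div_nonneg (by linarith) hpos.le
    · ext
      · simp only [Prod.smul_mk, smul_eq_mul, Prod.mk_add_mk]
        field_simp
        ring
      · simp only [Prod.smul_mk, smul_eq_mul, Prod.mk_add_mk]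
        rw [h3]
        ring

/-- Existence of a continuous piecewise linear interpolation. -/
lemma exists_interp (x y : ℕ → ℝ) (K : ℕ) (hx : ∀ k < K, x k < x (k + 1)) :
    ∃ f : ℝ → ℝ, Continuous f ∧
      (∀ k < K, ∀ t ∈ Icc (x k) (x (k + 1)),
        f t = y k + (y (k + 1) - y k) * ((t - x k) / (x (k + 1) - x k))) ∧
      ∀ t, x K ≤ t → f t = y K := by
  induction K with
  | zero => exact ⟨fun _ => y 0, continuous_const, by simp, fun _ _ => rfl⟩
  | succ K ih =>
    obtain ⟨f, hf, h1, h2⟩ := ih (fun k hk => hx k (by omega))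
    have hpos : 0 < x (K + 1) - x K := sub_pos.2 (hx K (by omega))
    refine ⟨fun t => f t + (y (K + 1) - y K) * max 0 (min 1 ((t - x K) / (x (K + 1) - x K))),
      ?_, ?_, ?_⟩
    · fun_prop
    · intro k hk t ht
      rcases Nat.lt_succ_iff_lt_or_eq.1 hk with hk' | rfl
      · have hmono : x (k + 1) ≤ x K := by
          have : ∀ j, k + 1 ≤ j → j ≤ K → x (k + 1) ≤ x j := by
            intro j hj
            induction j, hj using Nat.le_induction with
            | base => intro _; exact le_refl _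
            | succ j hj ihj =>
              intro hjK
              exact le_trans (ihj (by omega)) (hx j (by omega)).le
          exact this K (by omega) le_rfl
        have h3 : (t - x K) / (x (K + 1) - x K) ≤ 0 :=
          div_nonpos_of_nonpos_of_nonneg (by linarith [ht.2]) hpos.le
        simp only
        rw [h1 k hk' t ht, max_eq_left (le_trans (min_le_right _ _) h3)]
        ring
      · simp only
        have h3 : 0 ≤ (t - x k) / (x (k + 1) - x k) :=
          div_nonneg (by linarith [ht.1]) hpos.le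
        have h4 : (t - x k) / (x (k + 1) - x k) ≤ 1 :=
          (div_le_one hpos).2 (by linarith [ht.2])
        rw [h2 t ht.1, min_eq_right h4, max_eq_right h3]
    · intro t ht
      simp only
      have h4 : 1 ≤ (t - x K) / (x (K + 1) - x K) :=
        (one_le_div hpos).2 (by linarith)
      rw [h2 t (by linarith), min_eq_left h4, max_eq_right zero_le_one]
      ring

/-- Monotonicity of a chain. -/
lemma chain_lt {x : ℕ → ℝ} {K : ℕ} (hx : ∀ k < K, x k < x (k + 1)) {i j : ℕ} (hij : i < j)
    (hj : j ≤ K) : x i < x j := by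
  induction j, hij using Nat.le_induction with
  | base => exact hx i (by omega)
  | succ j hj' ihj => exact lt_trans (ihj (by omega)) (hx j (by omega))

lemma chain_le {x : ℕ → ℝ} {K : ℕ} (hx : ∀ k < K, x k < x (k + 1)) {i j : ℕ} (hij : i ≤ j)
    (hj : j ≤ K) : x i ≤ x j := by
  rcases hij.eq_or_lt with rfl | h
  · exact le_rfl
  · exact (chain_lt hx h hj).le

/-- Every point of the range of a chain lies in one of its intervals. -/
lemma exists_mem_Icc {x : ℕ → ℝ} {K : ℕ} (hK : 0 < K) {t : ℝ}
    (ht : t ∈ Icc (x 0) (x K)) : ∃ k < K, t ∈ Icc (x k) (x (k + 1)) := by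
  induction K with
  | zero => omega
  | succ K ih =>
    by_cases h : t ≤ x K
    · rcases Nat.eq_zero_or_pos K with rfl | hK'
      · exact ⟨0, by omega, ht.1, ht.2⟩
      · obtain ⟨k, hk, hk2⟩ := ih hK' ⟨ht.1, h⟩
        exact ⟨k, by omega, hk2⟩
    · exact ⟨K, by omega, (not_le.1 h).le, ht.2⟩

/-- Two intervals of a chain meet only if they are equal or adjacent. -/
lemma chain_inter {x : ℕ → ℝ} {K : ℕ} (hx : ∀ k < K, x k < x (k + 1)) {i j : ℕ} (hij : i < j)
    (hj : j < K) {t : ℝ} (h1 : t ∈ Icc (x i) (x (i + 1))) (h2 : t ∈ Icc (x j) (x (j + 1))) :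
    j = i + 1 ∧ t = x j := by
  have h3 : x (i + 1) ≤ x j := chain_le hx hij hj.le
  have h4 : x (i + 1) = x j := le_antisymm h3 (le_trans h2.1 h1.2)
  have h5 : j = i + 1 := by
    by_contra hne
    have : i + 1 < j := by omega
    exact absurd h4 (chain_lt hx this hj.le).ne
  exact ⟨h5, le_antisymm (h4 ▸ h1.2) h2.1⟩

end Pool.Agent.Lib.MP_af711c_co
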