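import Pool.Agent.Lib.MP_af711c_co.Defs
import Pool.Agent.Lib.MP_af711c_co.Interp

/-!
# Polygons bounded by two `x`-monotone chains
-/

namespace Pool.Agent.Lib.MP_af711c_co

open Set

/-- Data of a polygon bounded by two `x`-monotone chains. -/
structure MonoData where
  K1 : ℕ
  K2 : ℕ
  xt : ℕ → ℝ
  yt : ℕ → ℝ
  xl : ℕ → ℝ
  yl : ℕ → ℝ
  f : ℝ → ℝ
  g : ℝ → ℝ
  hK1 : 0 < K1
  hK2 : 0 < K2
  hK : 3 ≤ K1 + K2
  hxt : ∀ k < K1, xt k < xt (k + 1)
  hxl : ∀ k < K2, xl k < xl (k + 1)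
  x0 : xl 0 = xt 0
  xK : xl K2 = xt K1
  y0 : yl 0 = yt 0
  yK : yl K2 = yt K1
  hf : Continuous f
  hg : Continuous g
  fint : ∀ k < K2, ∀ t ∈ Icc (xl k) (xl (k + 1)),
    f t = yl k + (yl (k + 1) - yl k) * ((t - xl k) / (xl (k + 1) - xl k))
  gint : ∀ k < K1, ∀ t ∈ Icc (xt k) (xt (k + 1)),
    g t = yt k + (yt (k + 1) - yt k) * ((t - xt k) / (xt (k + 1) - xt k))
  flt : ∀ t ∈ Ioo (xt 0) (xt K1), f t < g t

namespace MonoData

variable (p : MonoData)

/-- The vertices. -/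
noncomputable def V (k : ℕ) : ℝ × ℝ :=
  if k ≤ p.K1 then (p.xt k, p.yt k) else (p.xl (p.K1 + p.K2 - k), p.yl (p.K1 + p.K2 - k))

lemma V_top {k : ℕ} (h : k ≤ p.K1) : p.V k = (p.xt k, p.yt k) := by simp [V, h]

lemma V_low {k : ℕ} (h : k ≤ p.K2) : p.V (p.K1 + p.K2 - k) = (p.xl k, p.yl k) := by
  rcases h.eq_or_lt with rfl | h'
  · have h1 : p.K1 + p.K2 - p.K2 = p.K1 := by omega
    rw [h1, p.V_top le_rfl, p.xK, p.yK]
  · have h1 : ¬ (p.K1 + p.K2 - k ≤ p.K1) := by omega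
    have h2 : p.K1 + p.K2 - (p.K1 + p.K2 - k) = k := by omega
    simp only [V, h1, if_false, h2]

lemma V_n : p.V (p.K1 + p.K2) = p.V 0 := by
  have h := p.V_low (Nat.zero_le _)
  rw [Nat.sub_zero] at h
  rw [h, p.V_top (Nat.zero_le _), p.x0, p.y0]

lemma g_xt {k : ℕ} (h : k ≤ p.K1) : p.g (p.xt k) = p.yt k := by
  rcases h.eq_or_lt with h' | h'
  · have hk : k - 1 < p.K1 := by have := p.hK1; omega
    have hk' : k - 1 + 1 = k := by have := p.hK1; omega
    have hlt := p.hxt (k - 1) hk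
    have := p.gint (k - 1) hk (p.xt k) (by rw [hk'] at hlt ⊢; exact ⟨hlt.le, le_rfl⟩)
    rw [hk'] at this hlt
    rw [this, div_self (sub_pos.2 hlt).ne']
    ring
  · have := p.gint k h' (p.xt k) ⟨le_rfl, (p.hxt k h').le⟩
    rw [this]
    simp

lemma f_xl {k : ℕ} (h : k ≤ p.K2) : p.f (p.xl k) = p.yl k := by
  rcases h.eq_or_lt with h' | h'
  · have hk : k - 1 < p.K2 := by have := p.hK2; omega
    have hk' : k - 1 + 1 = k := by have := p.hK2; omega
    have hlt := p.hxl (k - 1) hk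
    have := p.fint (k - 1) hk (p.xl k) (by rw [hk'] at hlt ⊢; exact ⟨hlt.le, le_rfl⟩)
    rw [hk'] at this hlt
    rw [this, div_self (sub_pos.2 hlt).ne']
    ring
  · have := p.fint k h' (p.xl k) ⟨le_rfl, (p.hxl k h').le⟩
    rw [this]
    simp

lemma f_eq_g_left : p.f (p.xt 0) = p.g (p.xt 0) := by
  rw [p.g_xt (Nat.zero_le _), ← p.x0, p.f_xl (Nat.zero_le _), p.y0]

lemma f_eq_g_right : p.f (p.xt p.K1) = p.g (p.xt p.K1) := by
  rw [p.g_xt le_rfl, ← p.xK, p.f_xl le_rfl, p.yK]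

lemma f_le_g {t : ℝ} (ht : t ∈ Icc (p.xt 0) (p.xt p.K1)) : p.f t ≤ p.g t := by
  rcases ht.1.eq_or_lt with h | h
  · rw [← h]; exact p.f_eq_g_left.le
  · rcases ht.2.eq_or_lt with h' | h'
    · rw [h']; exact p.f_eq_g_right.le
    · exact (p.flt t ⟨h, h'⟩).le

lemma edge_top {k : ℕ} (hk : k < p.K1) (q : ℝ × ℝ) :
    q ∈ segment ℝ (p.V k) (p.V (k + 1)) ↔
      q.1 ∈ Icc (p.xt k) (p.xt (k + 1)) ∧ q.2 = p.g q.1 := by
  rw [p.V_top hk.le, p.V_top hk, mem_segment_graph (p.hxt k hk)]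
  constructor
  · rintro ⟨h1, h2⟩
    exact ⟨h1, by rw [h2, p.gint k hk _ h1]⟩
  · rintro ⟨h1, h2⟩
    exact ⟨h1, by rw [h2, p.gint k hk _ h1]⟩

lemma edge_low {k : ℕ} (hk : k < p.K2) (q : ℝ × ℝ) :
    q ∈ segment ℝ (p.V (p.K1 + p.K2 - 1 - k)) (p.V (p.K1 + p.K2 - 1 - k + 1)) ↔
      q.1 ∈ Icc (p.xl k) (p.xl (k + 1)) ∧ q.2 = p.f q.1 := by
  have h1 : p.K1 + p.K2 - 1 - k = p.K1 + p.K2 - (k + 1) := by omega
  have h2 : p.K1 + p.K2 - (k + 1) + 1 = p.K1 + p.K2 - k := by omega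
  rw [h1, h2, p.V_low hk, p.V_low hk.le, segment_symm, mem_segment_graph (p.hxl k hk)]
  constructor
  · rintro ⟨h1, h2⟩
    exact ⟨h1, by rw [h2, p.fint k hk _ h1]⟩
  · rintro ⟨h1, h2⟩
    exact ⟨h1, by rw [h2, p.fint k hk _ h1]⟩

lemma simple_aux {i j : ℕ} (hij : i < j) (hj : j < p.K1 + p.K2) {q : ℝ × ℝ}
    (h1 : q ∈ segment ℝ (p.V i) (p.V (i + 1))) (h2 : q ∈ segment ℝ (p.V j) (p.V (j + 1))) :
    (q = p.V i ∨ q = p.V (i + 1)) ∧ (q = p.V j ∨ q = p.V (j + 1)) := by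
  have hK1 := p.hK1
  have hK2 := p.hK2
  by_cases hi1 : i < p.K1
  · rw [p.edge_top hi1] at h1
    by_cases hj1 : j < p.K1
    · rw [p.edge_top hj1] at h2
      obtain ⟨h3, h4⟩ := chain_inter p.hxt hij hj1 h1.1 h2.1
      have h5 : q = p.V j := by
        rw [p.V_top hj1.le]
        ext
        · exact h4
        · rw [h2.2, h4, p.g_xt hj1.le]
      exact ⟨Or.inr (h3 ▸ h5), Or.inl h5⟩
    · obtain ⟨k, hk, rfl⟩ : ∃ k < p.K2, j = p.K1 + p.K2 - 1 - k :=
        ⟨p.K1 + p.K2 - 1 - j, by omega, by omega⟩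
      rw [p.edge_low hk] at h2
      have hIcc : q.1 ∈ Icc (p.xt 0) (p.xt p.K1) :=
        ⟨le_trans (chain_le p.hxt (Nat.zero_le _) hi1.le) h1.1.1,
          le_trans h1.1.2 (chain_le p.hxt hi1 le_rfl)⟩
      have hfg : p.f q.1 = p.g q.1 := by rw [← h1.2, ← h2.2]
      have hend : q.1 = p.xt 0 ∨ q.1 = p.xt p.K1 := by
        by_contra hcon
        push Not at hcon
        have := p.flt q.1 ⟨lt_of_le_of_ne hIcc.1 (Ne.symm hcon.1), lt_of_le_of_ne hIcc.2 hcon.2⟩
        exact absurd hfg this.ne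
      rcases hend with h0 | hKK
      · have hi0 : i = 0 := by
          by_contra hne
          have := chain_lt p.hxt (Nat.pos_of_ne_zero hne) hi1.le
          have := h1.1.1
          linarith
        have hk0 : k = 0 := by
          by_contra hne
          have := chain_lt p.hxl (Nat.pos_of_ne_zero hne) hk.le
          have := h2.1.1
          have := p.x0
          linarith
        have h5 : q = p.V 0 := by
          rw [p.V_top (Nat.zero_le _)]
          ext
          · exact h0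
          · rw [h1.2, h0, p.g_xt (Nat.zero_le _)]
        refine ⟨Or.inl (by rw [hi0]; exact h5), Or.inr ?_⟩
        have h6 : p.K1 + p.K2 - 1 - k + 1 = p.K1 + p.K2 := by omega
        rw [h6, p.V_n]
        exact h5
      · have hi0 : i + 1 = p.K1 := by
          by_contra hne
          have : i + 1 < p.K1 := by omega
          have := chain_lt p.hxt this le_rfl
          have := h1.1.2
          linarith
        have hk0 : k + 1 = p.K2 := by
          by_contra hne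
          have : k + 1 < p.K2 := by omega
          have := chain_lt p.hxl this le_rfl
          have := h2.1.2
          have := p.xK
          linarith
        have h5 : q = p.V p.K1 := by
          rw [p.V_top le_rfl]
          ext
          · exact hKK
          · rw [h1.2, hKK, p.g_xt le_rfl]
        refine ⟨Or.inr (by rw [hi0]; exact h5), Or.inl ?_⟩
        have h6 : p.K1 + p.K2 - 1 - k = p.K1 := by omega
        rw [h6]
        exact h5
  · obtain ⟨k, hk, rfl⟩ : ∃ k < p.K2, i = p.K1 + p.K2 - 1 - k :=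
      ⟨p.K1 + p.K2 - 1 - i, by omega, by omega⟩
    obtain ⟨l, hl, rfl⟩ : ∃ l < p.K2, j = p.K1 + p.K2 - 1 - l :=
      ⟨p.K1 + p.K2 - 1 - j, by omega, by omega⟩
    rw [p.edge_low hk] at h1
    rw [p.edge_low hl] at h2
    obtain ⟨h3, h4⟩ := chain_inter p.hxl (show l < k by omega) hk h2.1 h1.1
    have h5 : q = p.V (p.K1 + p.K2 - k) := by
      rw [p.V_low hk.le]
      ext
      · exact h4
      · rw [h1.2, h4, p.f_xl hk.le]
    refine ⟨Or.inr ?_, Or.inl ?_⟩
    · have h6 : p.K1 + p.K2 - 1 - k + 1 = p.K1 + p.K2 - k := by omega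
      rw [h6]; exact h5
    · have h6 : p.K1 + p.K2 - 1 - l = p.K1 + p.K2 - k := by omega
      rw [h6]; exact h5

lemma V_ne {i j : ℕ} (hij : i < j) (hj : j < p.K1 + p.K2) : p.V i ≠ p.V j := by
  intro h
  by_cases hj1 : j ≤ p.K1
  · rw [p.V_top (by omega), p.V_top hj1] at h
    have := chain_lt p.hxt hij hj1
    have := (Prod.ext_iff.1 h).1
    simp only at this
    linarith
  · obtain ⟨l, hl, rfl⟩ : ∃ l ≤ p.K2, j = p.K1 + p.K2 - l :=
      ⟨p.K1 + p.K2 - j, by omega, by omega⟩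
    rw [p.V_low hl] at h
    by_cases hi1 : i ≤ p.K1
    · rw [p.V_top hi1] at h
      have h1 := (Prod.ext_iff.1 h).1
      have h2 := (Prod.ext_iff.1 h).2
      simp only at h1 h2
      rw [← p.g_xt hi1, ← p.f_xl hl] at h2
      rw [h1] at h2
      have hlt1 := chain_lt p.hxl (show 0 < l by omega) hl
      have hlt2 := chain_lt p.hxl (show l < p.K2 by omega) le_rfl
      rw [p.x0] at hlt1
      rw [p.xK] at hlt2
      exact absurd h2.symm (p.flt _ ⟨hlt1, hlt2⟩).ne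
    · obtain ⟨k, hk, rfl⟩ : ∃ k ≤ p.K2, i = p.K1 + p.K2 - k :=
        ⟨p.K1 + p.K2 - i, by omega, by omega⟩
      rw [p.V_low hk] at h
      have := chain_lt p.hxl (show l < k by omega) hk
      have := (Prod.ext_iff.1 h).1
      simp only at this
      linarith

lemma V_next (i : Fin (p.K1 + p.K2)) : p.V (next i : ℕ) = p.V ((i : ℕ) + 1) := by
  by_cases h : (i : ℕ) + 1 < p.K1 + p.K2
  · simp only [next, Nat.mod_eq_of_lt h]
  · have h' : (i : ℕ) + 1 = p.K1 + p.K2 := by have := i.2; omega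
    simp only [next, h', Nat.mod_self, p.V_n]

/-- The polygon. -/
noncomputable def poly : SimplePolygon (p.K1 + p.K2) where
  v i := p.V i
  three_le := p.hK
  injective := by
    intro i j h
    rcases lt_trichotomy (i : ℕ) (j : ℕ) with h' | h' | h'
    · exact absurd h (p.V_ne h' j.2)
    · exact Fin.ext h'
    · exact absurd h.symm (p.V_ne h' i.2)
  simple := by
    intro i j hij q hq
    simp only [p.V_next] at hq ⊢
    rcases lt_trichotomy (i : ℕ) (j : ℕ) with h' | h' | h'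
    · have := p.simple_aux h' j.2 hq.1 hq.2
      exact ⟨this.1, this.2⟩
    · exact absurd (Fin.ext h') hij
    · have := p.simple_aux h' i.2 hq.2 hq.1
      exact ⟨this.2, this.1⟩

lemma mem_curve (q : ℝ × ℝ) :
    q ∈ p.poly.curve ↔ q.1 ∈ Icc (p.xt 0) (p.xt p.K1) ∧ (q.2 = p.f q.1 ∨ q.2 = p.g q.1) := by
  have hK1 := p.hK1
  have hK2 := p.hK2
  unfold SimplePolygon.curve
  rw [mem_iUnion]
  constructor
  · rintro ⟨i, hi⟩
    change q ∈ segment ℝ (p.V i) (p.V (next i)) at hi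
    rw [p.V_next] at hi
    by_cases hi1 : (i : ℕ) < p.K1
    · rw [p.edge_top hi1] at hi
      exact ⟨⟨le_trans (chain_le p.hxt (Nat.zero_le _) hi1.le) hi.1.1,
          le_trans hi.1.2 (chain_le p.hxt hi1 le_rfl)⟩, Or.inr hi.2⟩
    · obtain ⟨k, hk, hik⟩ : ∃ k < p.K2, (i : ℕ) = p.K1 + p.K2 - 1 - k :=
        ⟨p.K1 + p.K2 - 1 - i, by omega, by omega⟩
      rw [hik, p.edge_low hk] at hi
      rw [← p.x0, ← p.xK]
      exact ⟨⟨le_trans (chain_le p.hxl (Nat.zero_le _) hk.le) hi.1.1,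
          le_trans hi.1.2 (chain_le p.hxl hk le_rfl)⟩, Or.inl hi.2⟩
  · rintro ⟨h1, h2 | h2⟩
    · rw [← p.x0, ← p.xK] at h1
      obtain ⟨k, hk, hk2⟩ := exists_mem_Icc p.hK2 h1
      refine ⟨⟨p.K1 + p.K2 - 1 - k, by omega⟩, ?_⟩
      change q ∈ segment ℝ (p.V _) (p.V (next _))
      rw [p.V_next, p.edge_low hk]
      exact ⟨hk2, h2⟩
    · obtain ⟨k, hk, hk2⟩ := exists_mem_Icc p.hK1 h1
      refine ⟨⟨k, by omega⟩, ?_⟩
      change q ∈ segment ℝ (p.V _) (p.V (next _))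
      rw [p.V_next, p.edge_top hk]
      exact ⟨hk2, h2⟩

lemma mem_region {q : ℝ × ℝ} (h1 : q.1 ∈ Icc (p.xt 0) (p.xt p.K1)) (h2 : p.f q.1 ≤ q.2)
    (h3 : q.2 ≤ p.g q.1) : q ∈ p.poly.region := by
  have hf := p.hf
  have hg := p.hg
  by_cases hq : q ∈ p.poly.curve
  · exact Or.inl hq
  refine Or.inr ⟨hq, ?_⟩
  set R : Set (ℝ × ℝ) := {q | q.1 ∈ Icc (p.xt 0) (p.xt p.K1) ∧ p.f q.1 ≤ q.2 ∧ q.2 ≤ p.g q.1}
    with hR
  set U : Set (ℝ × ℝ) := {q | q.1 ∈ Ioo (p.xt 0) (p.xt p.K1) ∧ p.f q.1 < q.2 ∧ q.2 < p.g q.1}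
    with hU
  have hRclosed : IsClosed R := by
    have : R = {q | p.xt 0 ≤ q.1} ∩ {q | q.1 ≤ p.xt p.K1} ∩
        ({q | p.f q.1 ≤ q.2} ∩ {q | q.2 ≤ p.g q.1}) := by
      ext q; simp [hR]
    rw [this]
    apply IsClosed.inter
    · exact IsClosed.inter (isClosed_le (by fun_prop) (by fun_prop))
        (isClosed_le (by fun_prop) (by fun_prop))
    · exact IsClosed.inter (isClosed_le (by fun_prop) (by fun_prop))
        (isClosed_le (by fun_prop) (by fun_prop))
  have hUopen : IsOpen U := by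
    have : U = {q | p.xt 0 < q.1} ∩ {q | q.1 < p.xt p.K1} ∩
        ({q | p.f q.1 < q.2} ∩ {q | q.2 < p.g q.1}) := by
      ext q; simp [hU]
    rw [this]
    apply IsOpen.inter
    · exact IsOpen.inter (isOpen_lt (by fun_prop) (by fun_prop))
        (isOpen_lt (by fun_prop) (by fun_prop))
    · exact IsOpen.inter (isOpen_lt (by fun_prop) (by fun_prop))
        (isOpen_lt (by fun_prop) (by fun_prop))
  have hUR : U ⊆ R := fun q hq => ⟨⟨hq.1.1.le, hq.1.2.le⟩, hq.2.1.le, hq.2.2.le⟩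
  have hRU : ∀ q ∈ R, q ∉ p.poly.curve → q ∈ U := by
    rintro q ⟨h1, h2, h3⟩ hq
    rw [p.mem_curve] at hq
    push Not at hq
    obtain ⟨hne1, hne2⟩ := hq h1
    refine ⟨⟨lt_of_le_of_ne h1.1 ?_, lt_of_le_of_ne h1.2 ?_⟩, lt_of_le_of_ne h2 (Ne.symm hne1),
      lt_of_le_of_ne h3 hne2⟩
    · intro h
      apply hne1
      apply le_antisymm _ h2
      rw [← h, p.f_eq_g_left, h]
      exact h3
    · intro h
      apply hne1
      apply le_antisymm _ h2
      rw [h, p.f_eq_g_right, ← h]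
      exact h3
  have hqU : q ∈ U := hRU q ⟨h1, h2, h3⟩ hq
  have hsub : connectedComponentIn p.poly.curveᶜ q ⊆ U := by
    apply IsPreconnected.subset_left_of_subset_union hUopen hRclosed.isOpen_compl
    · exact disjoint_left.2 fun x hx hx' => hx' (hUR hx)
    · intro x hx
      have hx' : x ∈ p.poly.curveᶜ := connectedComponentIn_subset _ _ hx
      by_cases hxR : x ∈ R
      · exact Or.inl (hRU x hxR hx')
      · exact Or.inr hxR
    · exact ⟨q, mem_connectedComponentIn hq, hqU⟩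
    · exact isPreconnected_connectedComponentIn
  have hbdd : Bornology.IsBounded U := by
    obtain ⟨C1, hC1⟩ := (isCompact_Icc (a := p.xt 0) (b := p.xt p.K1)).exists_bound_of_continuousOn
      hf.continuousOn
    obtain ⟨C2, hC2⟩ := (isCompact_Icc (a := p.xt 0) (b := p.xt p.K1)).exists_bound_of_continuousOn
      hg.continuousOn
    apply Bornology.IsBounded.subset
      (Bornology.IsBounded.prod (Metric.isBounded_Icc (p.xt 0) (p.xt p.K1))
        (Metric.isBounded_Icc (-C1) C2))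
    rintro x ⟨h1, h2, h3⟩
    have h1' : x.1 ∈ Icc (p.xt 0) (p.xt p.K1) := ⟨h1.1.le, h1.2.le⟩
    refine ⟨h1', ?_, ?_⟩
    · have := hC1 x.1 h1'
      rw [Real.norm_eq_abs, abs_le] at this
      linarith [this.1]
    · have := hC2 x.1 h1'
      rw [Real.norm_eq_abs, abs_le] at this
      linarith [this.2]
  exact hbdd.subset hsub

lemma not_mem_region {q : ℝ × ℝ} (h1 : q.1 ∈ Icc (p.xt 0) (p.xt p.K1)) (h2 : q.2 < p.f q.1) :
    q ∉ p.poly.region := by
  have hfg := p.f_le_g h1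
  have hcurve : ∀ y ≤ q.2, (q.1, y) ∈ p.poly.curveᶜ := by
    intro y hy hmem
    rw [p.mem_curve] at hmem
    rcases hmem.2 with h | h
    · simp only at h; linarith
    · simp only at h; linarith
  rintro (h | ⟨-, h⟩)
  · exact hcurve q.2 le_rfl h
  · set D : Set (ℝ × ℝ) := (fun y : ℝ => (q.1, y)) '' Iic q.2 with hD
    have hDpre : IsPreconnected D :=
      isPreconnected_Iic.image _ (by fun_prop)
    have hDsub : D ⊆ connectedComponentIn p.poly.curveᶜ q := by
      apply hDpre.subset_connectedComponentIn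
      · exact ⟨q.2, mem_Iic.2 le_rfl, rfl⟩
      · rintro _ ⟨y, hy, rfl⟩
        exact hcurve y hy
    have hDb : Bornology.IsBounded D := h.subset hDsub
    have h2 : Bornology.IsBounded (Prod.snd '' D) := hDb.image_snd
    have h3 : Prod.snd '' D = Iic q.2 := by
      ext y
      simp [hD]
    rw [h3] at h2
    have h4 := h2.bddBelow
    obtain ⟨b, hb⟩ := h4
    have h5 := hb (show min b q.2 - 1 ∈ Iic q.2 by
      have := min_le_right b q.2
      rw [mem_Iic]; linarith)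
    have := min_le_left b q.2
    linarith

end MonoData

end Pool.Agent.Lib.MP_af711c_co
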