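import Pool.Agent.Lib.MP_af711c_co.Mono

/-!
# The polygon with `m` spikes
-/

namespace Pool.Agent.Lib.MP_af711c_co

open Set

/-- Parameters: `m` spikes, top chain with vertices at abscissae `0, …, T`, and the number
`a s` of right marks seen by spike `s`. -/
structure Params where
  m : ℕ
  T : ℕ
  a : ℕ → ℕ
  hm : 1 ≤ m
  hT : 4 * m + 2 ≤ T
  ha : ∀ s < m, 4 * m + 2 * a s + 2 ≤ T

namespace Params

variable (p : Params)

/-- The number of vertices. -/
def n : ℕ := p.T + (3 * p.m + 1)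

noncomputable def δ : ℝ := 1 / (4 * ((p.T : ℝ) + 1))

lemma δ_pos : 0 < p.δ := by unfold δ; positivity

lemma δ_mul : p.δ * (p.T : ℝ) < 1 / 4 := by
  unfold δ
  have : (0 : ℝ) ≤ p.T := Nat.cast_nonneg _
  rw [div_mul_eq_mul_div, div_lt_div_iff₀ (by positivity) (by norm_num)]
  nlinarith

lemma δ_lt : p.δ < 1 := by
  unfold δ
  have : (0 : ℝ) ≤ p.T := Nat.cast_nonneg _
  rw [div_lt_one (by positivity)]
  nlinarith

/-- Heights of the top chain. -/
noncomputable def yt (k : ℕ) : ℝ :=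
  if k = 0 ∨ k = p.T then p.δ else if k % 2 = 0 then 1 else 2

/-- abscissa of the apex of the spike `s` -/
noncomputable def X (s : ℕ) : ℝ := 3 * p.m + s

noncomputable def sL (s : ℕ) : ℝ := 2 * s + 1

noncomputable def sR (s : ℕ) : ℝ := 4 * p.m + 2 * p.a s + 1

/-- Abscissae of the lower chain. -/
noncomputable def xl (q : ℕ) : ℝ :=
  if q = 0 then 0 else if 3 * p.m < q then p.T else
    if (q - 1) % 3 = 0 then p.X ((q - 1) / 3) + p.δ * (sL ((q - 1) / 3) - p.X ((q - 1) / 3))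
    else if (q - 1) % 3 = 1 then p.X ((q - 1) / 3)
    else p.X ((q - 1) / 3) + p.δ * (p.sR ((q - 1) / 3) - p.X ((q - 1) / 3))

/-- Heights of the lower chain. -/
noncomputable def yl (q : ℕ) : ℝ :=
  if q % 3 = 2 then 0 else p.δ

lemma xl_zero : p.xl 0 = 0 := by simp [xl]

lemma xl_last : p.xl (3 * p.m + 1) = p.T := by simp [xl]

lemma xl_l {s : ℕ} (hs : s < p.m) : p.xl (3 * s + 1) = p.X s + p.δ * (sL s - p.X s) := by
  have h1 : ¬ (3 * s + 1 = 0) := by omega
  have h2 : ¬ (3 * p.m < 3 * s + 1) := by omega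
  have h3 : (3 * s + 1 - 1) % 3 = 0 := by omega
  have h4 : (3 * s + 1 - 1) / 3 = s := by omega
  simp only [xl, h1, h2, h3, h4, if_false, if_true]

lemma xl_p {s : ℕ} (hs : s < p.m) : p.xl (3 * s + 2) = p.X s := by
  have h1 : ¬ (3 * s + 2 = 0) := by omega
  have h2 : ¬ (3 * p.m < 3 * s + 2) := by omega
  have h3 : ¬ (3 * s + 2 - 1) % 3 = 0 := by omega
  have h3' : (3 * s + 2 - 1) % 3 = 1 := by omega
  have h4 : (3 * s + 2 - 1) / 3 = s := by omega
  simp only [xl, h1, h2, h3', h4, if_false, if_true, one_ne_zero]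

lemma xl_r {s : ℕ} (hs : s < p.m) : p.xl (3 * s + 3) = p.X s + p.δ * (p.sR s - p.X s) := by
  have h1 : ¬ (3 * s + 3 = 0) := by omega
  have h2 : ¬ (3 * p.m < 3 * s + 3) := by omega
  have h3 : (3 * s + 3 - 1) % 3 = 2 := by omega
  have h4 : (3 * s + 3 - 1) / 3 = s := by omega
  simp only [xl, h1, h2, h3, h4, if_false, OfNat.ofNat_ne_zero, OfNat.ofNat_ne_one]

lemma hmR : (1 : ℝ) ≤ p.m := by exact_mod_cast p.hm

lemma hTR : 4 * (p.m : ℝ) + 2 ≤ p.T := by exact_mod_cast p.hT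

lemma haR {s : ℕ} (hs : s < p.m) : 4 * (p.m : ℝ) + 2 * p.a s + 2 ≤ p.T := by
  exact_mod_cast p.ha s hs

lemma hsR {s : ℕ} (hs : s < p.m) : (s : ℝ) + 1 ≤ p.m := by exact_mod_cast hs

/-- the distance from the apex to the left target -/
lemma sL_lt {s : ℕ} (hs : s < p.m) : 0 < p.X s - sL s ∧ p.X s - sL s ≤ p.T := by
  have h1 := p.hmR
  have h2 := p.hTR
  have h3 := p.hsR hs
  have h4 : (0 : ℝ) ≤ s := Nat.cast_nonneg _
  unfold X sL
  constructor <;> linarith

lemma sR_gt {s : ℕ} (hs : s < p.m) : 0 < p.sR s - p.X s ∧ p.sR s - p.X s ≤ p.T := by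
  have h1 := p.hmR
  have h2 := p.haR hs
  have h3 := p.hsR hs
  have h4 : (0 : ℝ) ≤ s := Nat.cast_nonneg _
  have h5 : (0 : ℝ) ≤ p.a s := Nat.cast_nonneg _
  unfold X sR
  constructor <;> linarith

lemma xl_l_bounds {s : ℕ} (hs : s < p.m) :
    p.X s - 1 / 4 < p.xl (3 * s + 1) ∧ p.xl (3 * s + 1) < p.X s := by
  rw [p.xl_l hs]
  have h1 := p.sL_lt hs
  have h2 := p.δ_pos
  have h3 := p.δ_mul
  constructor <;> nlinarith

lemma xl_r_bounds {s : ℕ} (hs : s < p.m) :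
    p.X s < p.xl (3 * s + 3) ∧ p.xl (3 * s + 3) < p.X s + 1 / 4 := by
  rw [p.xl_r hs]
  have h1 := p.sR_gt hs
  have h2 := p.δ_pos
  have h3 := p.δ_mul
  constructor <;> nlinarith

lemma cases_q {q : ℕ} (hq : q < 3 * p.m + 1) :
    q = 0 ∨ (∃ s < p.m, q = 3 * s + 1) ∨ (∃ s < p.m, q = 3 * s + 2) ∨
      (∃ s, s + 1 < p.m ∧ q = 3 * s + 3) ∨ q = 3 * p.m := by
  rcases Nat.eq_zero_or_pos q with h | h
  · exact Or.inl h
  · have h3 : (q - 1) % 3 < 3 := Nat.mod_lt _ (by norm_num)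
    have h4 := Nat.div_add_mod (q - 1) 3
    set s := (q - 1) / 3
    set r := (q - 1) % 3
    have hr : r = 0 ∨ r = 1 ∨ r = 2 := by omega
    rcases hr with hr | hr | hr
    · exact Or.inr (Or.inl ⟨s, by omega, by omega⟩)
    · exact Or.inr (Or.inr (Or.inl ⟨s, by omega, by omega⟩))
    · by_cases hs : s + 1 < p.m
      · exact Or.inr (Or.inr (Or.inr (Or.inl ⟨s, hs, by omega⟩)))
      · exact Or.inr (Or.inr (Or.inr (Or.inr (by omega))))

lemma hxl : ∀ q < 3 * p.m + 1, p.xl q < p.xl (q + 1) := by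
  intro q hq
  have h1 := p.hmR
  have h2 := p.hTR
  rcases p.cases_q hq with rfl | ⟨s, hs, rfl⟩ | ⟨s, hs, rfl⟩ | ⟨s, hs, rfl⟩ | rfl
  · rw [p.xl_zero]
    have := p.xl_l_bounds (s := 0) (by have := p.hm; omega)
    simp only [X] at this
    push_cast at this
    have h5 : p.xl (0 + 1) = p.xl (3 * 0 + 1) := rfl
    rw [h5]
    linarith [this.1]
  · have := p.xl_l_bounds hs
    rw [show 3 * s + 1 + 1 = 3 * s + 2 by ring, p.xl_p hs]
    exact this.2
  · have := p.xl_r_bounds hs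
    rw [show 3 * s + 2 + 1 = 3 * s + 3 by ring, p.xl_p hs]
    exact this.1
  · have h3 := p.xl_r_bounds (s := s) (by omega)
    have h4 := p.xl_l_bounds (s := s + 1) hs
    rw [show 3 * s + 3 + 1 = 3 * (s + 1) + 1 by ring]
    have h5 : p.X (s + 1) = p.X s + 1 := by unfold X; push_cast; ring
    rw [h5] at h4
    linarith [h3.2, h4.1]
  · rw [p.xl_last]
    have hm := p.hm
    have h3 := p.xl_r_bounds (s := p.m - 1) (by omega)
    rw [show 3 * (p.m - 1) + 3 = 3 * p.m by omega] at h3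
    have h4 : p.X (p.m - 1) = 4 * p.m - 1 := by
      unfold X
      rw [Nat.cast_sub hm]
      push_cast
      ring
    rw [h4] at h3
    linarith [h3.2]

lemma yl_le (q : ℕ) : p.yl q ≤ p.δ := by
  unfold yl
  split_ifs
  · exact p.δ_pos.le
  · exact le_rfl

lemma yt_zero : p.yt 0 = p.δ := by simp [yt]

lemma yt_last : p.yt p.T = p.δ := by simp [yt]

lemma one_le_yt {k : ℕ} (h0 : 0 < k) (hT : k < p.T) : 1 ≤ p.yt k := by
  unfold yt
  have h1 : ¬ (k = 0 ∨ k = p.T) := by omega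
  rw [if_neg h1]
  split_ifs <;> norm_num

lemma yt_ge (k : ℕ) : p.δ ≤ p.yt k := by
  unfold yt
  split_ifs
  · exact le_rfl
  · exact p.δ_lt.le
  · linarith [p.δ_lt]

lemma yt_even {k : ℕ} (h0 : 0 < k) (hT : k < p.T) (h : k % 2 = 0) : p.yt k = 1 := by
  unfold yt
  have h1 : ¬ (k = 0 ∨ k = p.T) := by omega
  rw [if_neg h1, if_pos h]

lemma exists_g : ∃ g : ℝ → ℝ, Continuous g ∧
    (∀ k < p.T, ∀ t ∈ Icc (k : ℝ) ((k + 1 : ℕ) : ℝ),
      g t = p.yt k + (p.yt (k + 1) - p.yt k) * ((t - (k : ℝ)) / (((k + 1 : ℕ) : ℝ) - (k : ℝ)))) := by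
  obtain ⟨g, h1, h2, -⟩ := exists_interp (fun k => (k : ℝ)) p.yt p.T
    (by intro k _; push_cast; linarith)
  exact ⟨g, h1, h2⟩

lemma exists_f : ∃ f : ℝ → ℝ, Continuous f ∧
    (∀ k < 3 * p.m + 1, ∀ t ∈ Icc (p.xl k) (p.xl (k + 1)),
      f t = p.yl k + (p.yl (k + 1) - p.yl k) * ((t - p.xl k) / (p.xl (k + 1) - p.xl k))) := by
  obtain ⟨g, h1, h2, -⟩ := exists_interp p.xl p.yl (3 * p.m + 1) p.hxl
  exact ⟨g, h1, h2⟩

noncomputable def g : ℝ → ℝ := p.exists_g.choose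
noncomputable def f : ℝ → ℝ := p.exists_f.choose

lemma hg : Continuous p.g := p.exists_g.choose_spec.1
lemma hf : Continuous p.f := p.exists_f.choose_spec.1

lemma g_eq {k : ℕ} (hk : k < p.T) {t : ℝ} (ht : t ∈ Icc (k : ℝ) ((k + 1 : ℕ) : ℝ)) :
    p.g t = p.yt k + (p.yt (k + 1) - p.yt k) * (t - (k : ℝ)) := by
  have := p.exists_g.choose_spec.2 k hk t ht
  have h2 : ((k + 1 : ℕ) : ℝ) - (k : ℝ) = 1 := by push_cast; ring
  rw [h2, div_one] at this
  exact this

lemma f_eq {k : ℕ} (hk : k < 3 * p.m + 1) {t : ℝ} (ht : t ∈ Icc (p.xl k) (p.xl (k + 1))) :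
    p.f t = p.yl k + (p.yl (k + 1) - p.yl k) * ((t - p.xl k) / (p.xl (k + 1) - p.xl k)) :=
  p.exists_f.choose_spec.2 k hk t ht

lemma f_le {t : ℝ} (ht : t ∈ Icc (0 : ℝ) p.T) : p.f t ≤ p.δ := by
  rw [← p.xl_zero, ← p.xl_last] at ht
  obtain ⟨k, hk, hk2⟩ := exists_mem_Icc (by omega) ht
  rw [p.f_eq hk hk2]
  have hlt := p.hxl k hk
  have hpos : 0 < p.xl (k + 1) - p.xl k := sub_pos.2 hlt
  set c := (t - p.xl k) / (p.xl (k + 1) - p.xl k) with hc
  have hc0 : 0 ≤ c := div_nonneg (by linarith [hk2.1]) hpos.le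
  have hc1 : c ≤ 1 := (div_le_one hpos).2 (by linarith [hk2.2])
  have h1 := p.yl_le k
  have h2 := p.yl_le (k + 1)
  nlinarith

/-- `g > δ` in the open interval. -/
lemma lt_g {t : ℝ} (ht : t ∈ Ioo (0 : ℝ) p.T) : p.δ < p.g t := by
  have ht' : t ∈ Icc (((0 : ℕ) : ℝ)) (p.T : ℝ) := ⟨by push_cast; exact ht.1.le, ht.2.le⟩
  have hT2 := p.hT
  have hδ := p.δ_lt
  obtain ⟨k, hk, hk2⟩ := exists_mem_Icc (x := fun k => (k : ℝ)) (by omega) ht'
  rw [p.g_eq hk hk2]
  have hk1 := hk2.1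
  have hk3 := hk2.2
  push_cast at hk3
  have hc0 : 0 ≤ t - (k : ℝ) := by linarith
  have hc1 : t - (k : ℝ) ≤ 1 := by linarith
  rcases Nat.eq_zero_or_pos k with rfl | hkpos
  · have h1 := p.one_le_yt (k := 1) (by omega) (by omega)
    rw [p.yt_zero]
    have h0 : 0 < t - ((0 : ℕ) : ℝ) := by push_cast; linarith [ht.1]
    have : p.yt (0 + 1) = p.yt 1 := rfl
    rw [this]
    nlinarith
  · by_cases hkT : k + 1 = p.T
    · have h1 := p.one_le_yt (k := k) hkpos hk
      rw [hkT, p.yt_last]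
      have h2 : ((k : ℝ)) + 1 = p.T := by exact_mod_cast hkT
      have h0 : t - (k : ℝ) < 1 := by linarith [ht.2]
      nlinarith
    · have h1 := p.one_le_yt (k := k) hkpos hk
      have h2 := p.one_le_yt (k := k + 1) (by omega) (by omega)
      nlinarith

/-- `g ≥ 1` away from the ends. -/
lemma one_le_g {t : ℝ} (ht : t ∈ Icc (1 : ℝ) ((p.T : ℝ) - 1)) : 1 ≤ p.g t := by
  have ht' : t ∈ Icc (((0 : ℕ) : ℝ)) (p.T : ℝ) := by
    refine ⟨by push_cast; linarith [ht.1], by linarith [ht.2]⟩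
  have hT2 := p.hT
  have hδ := p.δ_lt
  obtain ⟨k, hk, hk2⟩ := exists_mem_Icc (x := fun k => (k : ℝ)) (by omega) ht'
  have hk1 := hk2.1
  have hk3 := hk2.2
  push_cast at hk3
  have hc0 : 0 ≤ t - (k : ℝ) := by linarith
  have hc1 : t - (k : ℝ) ≤ 1 := by linarith
  rcases Nat.eq_zero_or_pos k with rfl | hkpos
  · have h1 := p.one_le_yt (k := 1) (by omega) (by omega)
    rw [p.g_eq hk hk2, p.yt_zero]
    have h0 : t - ((0 : ℕ) : ℝ) = 1 := by
      push_cast at hk3 ⊢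
      linarith [ht.1]
    have : p.yt (0 + 1) = p.yt 1 := rfl
    rw [this, h0]
    linarith
  · rw [p.g_eq hk hk2]
    by_cases hkT : k + 1 = p.T
    · have h1 := p.one_le_yt (k := k) hkpos hk
      rw [hkT, p.yt_last]
      have h2 : ((k : ℝ)) + 1 = p.T := by exact_mod_cast hkT
      have h0 : t - (k : ℝ) = 0 := by linarith [ht.2]
      rw [h0]
      linarith
    · have h1 := p.one_le_yt (k := k) hkpos hk
      have h2 := p.one_le_yt (k := k + 1) (by omega) (by omega)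
      nlinarith

/-- The monotone polygon data. -/
noncomputable def data : MonoData where
  K1 := p.T
  K2 := 3 * p.m + 1
  xt := fun k => (k : ℝ)
  yt := p.yt
  xl := p.xl
  yl := p.yl
  f := p.f
  g := p.g
  hK1 := by have := p.hT; omega
  hK2 := by omega
  hK := by have := p.hT; omega
  hxt := by intro k _; push_cast; linarith
  hxl := p.hxl
  x0 := by rw [p.xl_zero]; simp
  xK := p.xl_last
  y0 := by rw [p.yt_zero]; simp [yl]
  yK := by
    rw [p.yt_last]
    unfold yl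
    rw [if_neg (by omega)]
  hf := p.hf
  hg := p.hg
  fint := fun k hk t ht => p.f_eq hk ht
  gint := fun k hk t ht => by
    rw [p.g_eq hk ht]
    have h2 : ((k + 1 : ℕ) : ℝ) - (k : ℝ) = 1 := by push_cast; ring
    rw [h2, div_one]
  flt := by
    intro t ht
    have ht' : t ∈ Ioo (0 : ℝ) p.T := by simpa using ht
    exact lt_of_le_of_lt (p.f_le ⟨ht'.1.le, ht'.2.le⟩) (p.lt_g ht')

/-- The polygon. -/
noncomputable def poly : SimplePolygon p.n := p.data.poly

/-- The segment from an apex to a mark. -/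
lemma V_apex {s : ℕ} (hs : s < p.m) : p.data.V (p.n - (3 * s + 2)) = (p.X s, 0) := by
  have h := p.data.V_low (k := 3 * s + 2) (by change 3 * s + 2 ≤ 3 * p.m + 1; omega)
  change p.data.V (p.T + (3 * p.m + 1) - (3 * s + 2)) = (p.xl (3 * s + 2), p.yl (3 * s + 2)) at h
  unfold n
  rw [h, p.xl_p hs]
  unfold yl
  rw [if_pos (by omega)]

lemma V_mark {k : ℕ} (h0 : 0 < k) (hk : k < p.T) (he : k % 2 = 0) :
    p.data.V k = ((k : ℝ), 1) := by
  rw [p.data.V_top (by change k ≤ p.T; omega)]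
  change ((k : ℝ), p.yt k) = _
  rw [p.yt_even h0 hk he]

lemma f_right {s : ℕ} (hs : s < p.m) {t : ℝ} (h1 : p.X s ≤ t) (h2 : t ≤ p.xl (3 * s + 3)) :
    p.f t * (p.sR s - p.X s) = t - p.X s := by
  have h3 := p.f_eq (k := 3 * s + 2) (by omega) (t := t)
    ⟨by rw [p.xl_p hs]; exact h1, h2⟩
  have h4 := p.sR_gt hs
  have h5 := p.δ_pos
  rw [h3, p.xl_p hs, show 3 * s + 2 + 1 = 3 * s + 3 by ring, p.xl_r hs]
  have h6 : p.yl (3 * s + 2) = 0 := by unfold yl; rw [if_pos (by omega)]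
  have h7 : p.yl (3 * s + 3) = p.δ := by unfold yl; rw [if_neg (by omega)]
  rw [h6, h7]
  have h8 : p.X s + p.δ * (p.sR s - p.X s) - p.X s = p.δ * (p.sR s - p.X s) := by ring
  rw [h8]
  have h9 := h4.1.ne'
  field_simp
  ring

lemma f_left {s : ℕ} (hs : s < p.m) {t : ℝ} (h1 : p.xl (3 * s + 1) ≤ t) (h2 : t ≤ p.X s) :
    p.f t * (p.X s - sL s) = p.X s - t := by
  have h3 := p.f_eq (k := 3 * s + 1) (by omega) (t := t)
    ⟨h1, by rw [show 3 * s + 1 + 1 = 3 * s + 2 by ring, p.xl_p hs]; exact h2⟩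
  have h4 := p.sL_lt hs
  have h5 := p.δ_pos
  rw [h3, show 3 * s + 1 + 1 = 3 * s + 2 by ring, p.xl_p hs, p.xl_l hs]
  have h6 : p.yl (3 * s + 2) = 0 := by unfold yl; rw [if_pos (by omega)]
  have h7 : p.yl (3 * s + 1) = p.δ := by unfold yl; rw [if_neg (by omega)]
  rw [h6, h7]
  have h8 : p.X s - (p.X s + p.δ * (sL s - p.X s)) = p.δ * (p.X s - sL s) := by ring
  rw [h8]
  have h9 := h4.1.ne'
  have h10 : p.X s - sL s ≠ 0 := h9
  field_simp
  ring

/-- Points of the segment from the apex to a mark. -/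
lemma mem_seg {x k : ℝ} (q : ℝ × ℝ) :
    q ∈ segment ℝ (x, (0 : ℝ)) (k, (1 : ℝ)) ↔
      0 ≤ q.2 ∧ q.2 ≤ 1 ∧ q.1 = x + q.2 * (k - x) := by
  constructor
  · rintro ⟨a, b, ha, hb, hab, rfl⟩
    have ha' : a = 1 - b := by linarith
    subst ha'
    simp only [Prod.smul_mk, smul_eq_mul, Prod.mk_add_mk]
    refine ⟨by linarith, by linarith, by ring⟩
  · rintro ⟨h1, h2, h3⟩
    refine ⟨1 - q.2, q.2, by linarith, h1, by ring, ?_⟩
    ext
    · simp only [Prod.smul_mk, smul_eq_mul, Prod.mk_add_mk]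
      rw [h3]; ring
    · simp

lemma X_bounds {s : ℕ} (hs : s < p.m) : 3 ≤ p.X s ∧ p.X s ≤ (p.T : ℝ) - 3 := by
  have h1 := p.hmR
  have h2 := p.hTR
  have h3 := p.hsR hs
  have h4 : (0 : ℝ) ≤ s := Nat.cast_nonneg _
  unfold X
  constructor <;> linarith

lemma visible {s k : ℕ} (hs : s < p.m) (h0 : 0 < k) (hk : k < p.T)
    (h1 : sL s < k) (h2 : (k : ℝ) < p.sR s) :
    segment ℝ (p.X s, (0 : ℝ)) ((k : ℝ), (1 : ℝ)) ⊆ p.data.poly.region := by
  intro q hq
  rw [mem_seg] at hq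
  obtain ⟨hq0, hq1, hq2⟩ := hq
  have hX := p.X_bounds hs
  have hk1 : (1 : ℝ) ≤ k := by exact_mod_cast h0
  have hk2 : (k : ℝ) ≤ p.T - 1 := by
    have : (k : ℝ) + 1 ≤ p.T := by exact_mod_cast hk
    linarith
  have hb1 : 1 ≤ q.1 := by rw [hq2]; nlinarith
  have hb2 : q.1 ≤ p.T - 1 := by rw [hq2]; nlinarith
  apply p.data.mem_region
  · change q.1 ∈ Icc (((0 : ℕ) : ℝ)) (p.T : ℝ)
    exact ⟨by push_cast; linarith, by linarith⟩
  · change p.f q.1 ≤ q.2
    have hfle := p.f_le (t := q.1) ⟨by linarith, by linarith⟩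
    by_cases hy : p.δ ≤ q.2
    · linarith
    · push Not at hy
      rcases le_total (p.X s) k with hkx | hkx
      · have h3 : p.X s ≤ q.1 := by rw [hq2]; nlinarith
        have h4 : q.1 ≤ p.xl (3 * s + 3) := by
          rw [p.xl_r hs, hq2]
          have h5 : q.2 * (k - p.X s) ≤ p.δ * (k - p.X s) :=
            mul_le_mul_of_nonneg_right hy.le (by linarith)
          have h6 : p.δ * (k - p.X s) ≤ p.δ * (p.sR s - p.X s) :=
            mul_le_mul_of_nonneg_left (by linarith) p.δ_pos.le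
          linarith
        have h5 := p.f_right hs h3 h4
        have h6 := (p.sR_gt hs).1
        have h7 : p.f q.1 * (p.sR s - p.X s) ≤ q.2 * (p.sR s - p.X s) := by
          rw [h5, hq2]
          nlinarith
        exact le_of_mul_le_mul_right h7 h6
      · have h3 : q.1 ≤ p.X s := by rw [hq2]; nlinarith
        have h4 : p.xl (3 * s + 1) ≤ q.1 := by
          rw [p.xl_l hs, hq2]
          have h5 : q.2 * (p.X s - k) ≤ p.δ * (p.X s - k) :=
            mul_le_mul_of_nonneg_right hy.le (by linarith)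
          have h6 : p.δ * (p.X s - k) ≤ p.δ * (p.X s - sL s) :=
            mul_le_mul_of_nonneg_left (by linarith) p.δ_pos.le
          nlinarith
        have h5 := p.f_left hs h4 h3
        have h6 := (p.sL_lt hs).1
        have h7 : p.f q.1 * (p.X s - sL s) ≤ q.2 * (p.X s - sL s) := by
          rw [h5, hq2]
          nlinarith
        exact le_of_mul_le_mul_right h7 h6
  · change q.2 ≤ p.g q.1
    have := p.one_le_g (t := q.1) ⟨hb1, hb2⟩
    linarith

lemma not_visible_right {s k : ℕ} (hs : s < p.m) (h2 : p.sR s < k) :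
    ¬ segment ℝ (p.X s, (0 : ℝ)) ((k : ℝ), (1 : ℝ)) ⊆ p.data.poly.region := by
  intro hsub
  have hX := p.X_bounds hs
  have h3 := p.sR_gt hs
  have hδ := p.δ_pos
  have hδ1 := p.δ_lt
  have hδT := p.δ_mul
  have hkX : 0 < (k : ℝ) - p.X s := by linarith
  -- the point below the right window vertex
  set y : ℝ := p.δ * (p.sR s - p.X s) / (k - p.X s) with hy
  have hy0 : 0 < y := div_pos (mul_pos hδ h3.1) hkX
  have hyδ : y < p.δ := by
    rw [hy, div_lt_iff₀ hkX]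
    nlinarith
  have hq : (p.X s + y * (k - p.X s), y) ∈ segment ℝ (p.X s, (0 : ℝ)) ((k : ℝ), (1 : ℝ)) := by
    rw [mem_seg]
    exact ⟨hy0.le, by simp only; linarith, rfl⟩
  have hx : p.X s + y * (k - p.X s) = p.xl (3 * s + 3) := by
    rw [p.xl_r hs, hy, div_mul_cancel₀ _ hkX.ne']
  have hb := p.xl_r_bounds hs
  refine p.data.not_mem_region ?_ ?_ (hsub hq)
  · change p.X s + y * (k - p.X s) ∈ Icc (((0 : ℕ) : ℝ)) (p.T : ℝ)
    rw [hx]
    exact ⟨by push_cast; linarith, by linarith⟩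
  · change y < p.f (p.X s + y * (k - p.X s))
    rw [hx]
    have h5 := p.f_right hs hb.1.le le_rfl
    have h6 : p.xl (3 * s + 3) - p.X s = p.δ * (p.sR s - p.X s) := by
      rw [p.xl_r hs]; ring
    rw [h6] at h5
    have h7 := mul_right_cancel₀ h3.1.ne' h5
    rw [h7]
    exact hyδ

lemma not_visible_left {s k : ℕ} (hs : s < p.m) (h2 : (k : ℝ) < sL s) :
    ¬ segment ℝ (p.X s, (0 : ℝ)) ((k : ℝ), (1 : ℝ)) ⊆ p.data.poly.region := by
  intro hsub
  have hX := p.X_bounds hs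
  have h3 := p.sL_lt hs
  have hδ := p.δ_pos
  have hδ1 := p.δ_lt
  have hδT := p.δ_mul
  have hkX : 0 < p.X s - (k : ℝ) := by linarith
  -- the point below the left window vertex
  set y : ℝ := p.δ * (p.X s - sL s) / (p.X s - k) with hy
  have hy0 : 0 < y := div_pos (mul_pos hδ h3.1) hkX
  have hyδ : y < p.δ := by
    rw [hy, div_lt_iff₀ hkX]
    nlinarith
  have hq : (p.X s + y * (k - p.X s), y) ∈ segment ℝ (p.X s, (0 : ℝ)) ((k : ℝ), (1 : ℝ)) := by
    rw [mem_seg]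
    exact ⟨hy0.le, by simp only; linarith, rfl⟩
  have hx : p.X s + y * (k - p.X s) = p.xl (3 * s + 1) := by
    rw [p.xl_l hs]
    have : y * (p.X s - k) = p.δ * (p.X s - sL s) := by
      rw [hy, div_mul_cancel₀ _ hkX.ne']
    linarith
  have hb := p.xl_l_bounds hs
  refine p.data.not_mem_region ?_ ?_ (hsub hq)
  · change p.X s + y * (k - p.X s) ∈ Icc (((0 : ℕ) : ℝ)) (p.T : ℝ)
    rw [hx]
    exact ⟨by push_cast; linarith, by linarith⟩
  · change y < p.f (p.X s + y * (k - p.X s))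
    rw [hx]
    have h5 := p.f_left hs le_rfl hb.2.le
    have h6 : p.X s - p.xl (3 * s + 1) = p.δ * (p.X s - sL s) := by
      rw [p.xl_l hs]; ring
    rw [h6] at h5
    have h7 := mul_right_cancel₀ h3.1.ne' h5
    rw [h7]
    exact hyδ

/-- Adjacency between the apex of spike `s` and the even top vertex `k`. -/
lemma adj_iff {s k : ℕ} (hs : s < p.m) (h0 : 0 < k) (hk : k < p.T) (he : k % 2 = 0)
    (i j : Fin p.n) (hi : (i : ℕ) = p.n - (3 * s + 2)) (hj : (j : ℕ) = k) :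
    p.poly.visibilityGraph.Adj i j ↔ 2 * s + 1 < k ∧ k < 4 * p.m + 2 * p.a s + 1 := by
  have hne : i ≠ j := by
    intro h
    have h1 : (i : ℕ) = j := congrArg _ h
    have h2 : p.n = p.T + (3 * p.m + 1) := rfl
    omega
  have hvi : p.poly.v i = (p.X s, 0) := by
    change p.data.V i = _
    rw [hi]
    exact p.V_apex hs
  have hvj : p.poly.v j = ((k : ℝ), 1) := by
    change p.data.V j = _
    rw [hj]
    exact p.V_mark h0 hk he
  change (i ≠ j ∧ segment ℝ (p.poly.v i) (p.poly.v j) ⊆ p.data.poly.region) ↔ _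
  rw [hvi, hvj]
  constructor
  · rintro ⟨-, hsub⟩
    constructor
    · by_contra hcon
      have h1 : k < 2 * s + 1 := by omega
      refine p.not_visible_left hs (k := k) ?_ hsub
      unfold sL
      exact_mod_cast h1
    · by_contra hcon
      have h1 : 4 * p.m + 2 * p.a s + 1 < k := by omega
      refine p.not_visible_right hs (k := k) ?_ hsub
      unfold sR
      exact_mod_cast h1
  · rintro ⟨h1, h2⟩
    refine ⟨hne, p.visible hs h0 hk ?_ ?_⟩
    · unfold sL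
      exact_mod_cast h1
    · unfold sR
      exact_mod_cast h2

end Params

end Pool.Agent.Lib.MP_af711c_co
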